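import Mathlib
import Pool.Agent.N990.EJ.Stm

/-!
# EJ/GEO: the vertices of the infinite hierarchical lattice and the replacement of spins

Adapted from `Pool/Agent/N751/RT/GEO.lean` (helper751) by helper14.
-/

open MeasureTheory
open Pool.Agent.N988.EA

namespace Pool.Agent.N14.EJ

open Pool.Agent.N990.EJ

theorem emb_inl_ne_inr {b n : ℕ} (i : Fin b) (h s : Bool) (y : Vert b n) :
    (emb i h (.inl s) : Pt b (n + 1)) ≠ emb i h (.inr y) := by
  intro hxy
  by_cases hs : s = h
  · have e1 : (emb i h (.inl s) : Pt b (n + 1)) = Sum.inl h := if_pos hs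
    exact Sum.inl_ne_inr (e1.symm.trans hxy)
  · have e1 : (emb i h (.inl s) : Pt b (n + 1)) =
        Sum.inr (Sum.inl i : Vert b (n + 1)) := if_neg hs
    have e2 := Sum.inr.inj (e1.symm.trans hxy)
    exact Sum.inl_ne_inr e2

theorem emb_inj {b n : ℕ} (i : Fin b) (h : Bool) :
    Function.Injective (emb i h : Pt b n → Pt b (n + 1)) := by
  intro x y hxy
  rcases x with s | x <;> rcases y with t | y
  · simp only [emb] at hxy
    congr 1
    cases s <;> cases t <;> cases h <;> simp at hxy ⊢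
  · exact absurd hxy (emb_inl_ne_inr i h s y)
  · exact absurd hxy.symm (emb_inl_ne_inr i h t x)
  · have h1 := Sum.inr.inj hxy
    have h2 : ((i, h, x) : Fin b × Bool × Vert b n) = (i, h, y) := Sum.inr.inj h1
    have h3 : x = y := by
      have := congrArg (fun z => z.2.2) h2
      exact this
    rw [h3]

theorem inc_emb (p : ℕ → Fin 2 × Bool) (n : ℕ) (x : Pt 2 n) :
    inc p (n + 1) (emb (p n).1 (p n).2 x) = inc p n x := by
  have h : ∃ y, emb (p n).1 (p n).2 y = emb (p n).1 (p n).2 x := ⟨x, rfl⟩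
  have e : h.choose = x := emb_inj _ _ h.choose_spec
  have e1 : inc p (n + 1) (emb (p n).1 (p n).2 x) = inc p n h.choose := dif_pos h
  rw [e1, e]

theorem inc_new (p : ℕ → Fin 2 × Bool) (n : ℕ) (x : Pt 2 (n + 1))
    (hx : ∀ y, emb (p n).1 (p n).2 y ≠ x) :
    inc p (n + 1) x = (Sum.inr ⟨n, ⟨x, hx⟩⟩ : VInf p) := by
  have h : ¬ ∃ y, emb (p n).1 (p n).2 y = x := by
    rintro ⟨y, hy⟩; exact hx y hy
  exact dif_neg h

theorem inc_lt (p : ℕ → Fin 2 × Bool) : ∀ (n : ℕ) (x : Pt 2 n) (m : ℕ)
    (z : {x : Pt 2 (m + 1) // ∀ y, emb (p m).1 (p m).2 y ≠ x}),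
    inc p n x = (Sum.inr ⟨m, z⟩ : VInf p) → m < n := by
  intro n
  induction n with
  | zero =>
    intro x m z h
    exact absurd h (by intro h'; exact Sum.inl_ne_inr h')
  | succ n ih =>
    intro x m z h
    by_cases hx : ∃ y, emb (p n).1 (p n).2 y = x
    · obtain ⟨y, rfl⟩ := hx
      rw [inc_emb] at h
      exact (ih y m z h).trans (Nat.lt_succ_self n)
    · rw [inc_new p n x (fun y hy => hx ⟨y, hy⟩)] at h
      have h1 := Sum.inr.inj h
      have h2 : n = m := congrArg Sigma.fst h1
      omega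

theorem inc_inj (p : ℕ → Fin 2 × Bool) : ∀ n, Function.Injective (inc p n) := by
  intro n
  induction n with
  | zero =>
    intro x y h
    exact Sum.inl.inj h
  | succ n ih =>
    intro x y h
    by_cases hx : ∃ z, emb (p n).1 (p n).2 z = x
    · obtain ⟨x', rfl⟩ := hx
      by_cases hy : ∃ z, emb (p n).1 (p n).2 z = y
      · obtain ⟨y', rfl⟩ := hy
        rw [inc_emb, inc_emb] at h
        rw [ih h]
      · rw [inc_emb, inc_new p n y (fun z hz => hy ⟨z, hz⟩)] at h
        exact absurd (inc_lt p n _ _ _ h) (lt_irrefl n)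
    · by_cases hy : ∃ z, emb (p n).1 (p n).2 z = y
      · obtain ⟨y', rfl⟩ := hy
        rw [inc_emb, inc_new p n x (fun z hz => hx ⟨z, hz⟩)] at h
        exact absurd (inc_lt p n _ _ _ h.symm) (lt_irrefl n)
      · rw [inc_new p n x (fun z hz => hx ⟨z, hz⟩), inc_new p n y (fun z hz => hy ⟨z, hz⟩)] at h
        have h1 := Sum.inr.inj h
        have h2 := eq_of_heq (Sigma.mk.inj h1).2
        exact congrArg Subtype.val h2

theorem repl_in (p : ℕ → Fin 2 × Bool) (n : ℕ) (ω : VInf p → Bool) (σ : Vert 2 n → Bool)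
    (x : Vert 2 n) : repl p n ω σ (inc p n (.inr x)) = σ x := by
  have h : ∃ y : Vert 2 n, inc p n (.inr y) = inc p n (.inr x) := ⟨x, rfl⟩
  have e : h.choose = x := Sum.inr.inj (inc_inj p n h.choose_spec)
  rw [repl, dif_pos h, e]

theorem repl_out (p : ℕ → Fin 2 × Bool) (n : ℕ) (ω : VInf p → Bool) (σ : Vert 2 n → Bool)
    (v : VInf p) (hv : ∀ x : Vert 2 n, inc p n (.inr x) ≠ v) : repl p n ω σ v = ω v := by
  have h : ¬ ∃ y : Vert 2 n, inc p n (.inr y) = v := by
    rintro ⟨y, hy⟩; exact hv y hy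
  rw [repl, dif_neg h]

theorem cpl_cont (p : ℕ → Fin 2 × Bool) : ∀ (n : ℕ) (e : Edge 2 n),
    Continuous fun w : EdgeInf 2 p → ℝ => cpl p w n e := by
  intro n
  induction n with
  | zero =>
    intro e
    exact continuous_apply _
  | succ n ih =>
    intro e
    by_cases h : (e.1, e.2.1) = p n
    · have h1 : (fun w : EdgeInf 2 p → ℝ => cpl p w (n + 1) e) = fun w => cpl p w n e.2.2 := by
        funext w
        exact dif_pos h
      rw [h1]
      exact ih _
    · have h1 : (fun w : EdgeInf 2 p → ℝ => cpl p w (n + 1) e) =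
          fun w => w (.inr ⟨n, ⟨(e.1, e.2.1), h⟩, e.2.2⟩) := by
        funext w
        exact dif_neg h
      rw [h1]
      exact continuous_apply _

theorem cpl_meas (p : ℕ → Fin 2 × Bool) : ∀ (n : ℕ) (e : Edge 2 n),
    Measurable fun w : EdgeInf 2 p → ℝ => cpl p w n e := by
  intro n
  induction n with
  | zero =>
    intro e
    exact measurable_pi_apply _
  | succ n ih =>
    intro e
    by_cases h : (e.1, e.2.1) = p n
    · have h1 : (fun w : EdgeInf 2 p → ℝ => cpl p w (n + 1) e) = fun w => cpl p w n e.2.2 := by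
        funext w
        exact dif_pos h
      rw [h1]
      exact ih _
    · have h1 : (fun w : EdgeInf 2 p → ℝ => cpl p w (n + 1) e) =
          fun w => w (.inr ⟨n, ⟨(e.1, e.2.1), h⟩, e.2.2⟩) := by
        funext w
        exact dif_neg h
      rw [h1]
      exact measurable_pi_apply _

theorem t_geo : S_GEO := by
  intro p
  refine ⟨?_, ?_, fun n x => inc_emb p n x, inc_inj p, ?_, ?_, ?_, ?_, ?_, ?_, ?_, ?_⟩
  · exact inferInstanceAs (Countable (Pt 2 0 ⊕
      (Σ n : ℕ, {x : Pt 2 (n + 1) // ∀ y, emb (p n).1 (p n).2 y ≠ x})))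
  · exact inferInstanceAs (Countable (Unit ⊕
      (Σ n : ℕ, {q : Fin 2 × Bool // q ≠ p n} × Edge 2 n)))
  · rintro (x | ⟨n, x, hx⟩)
    · exact ⟨0, x, rfl⟩
    · exact ⟨n + 1, x, inc_new p n x hx⟩
  · intro n ω σ
    exact ⟨repl_in p n ω σ, repl_out p n ω σ⟩
  · intro n ω σ σ'
    funext v
    by_cases hv : ∃ x : Vert 2 n, inc p n (.inr x) = v
    · obtain ⟨x, rfl⟩ := hv
      rw [repl_in]
      have e : inc p n (.inr x) = inc p (n + 1) (Sum.inr
          (Sum.inr ((p n).1, (p n).2, x) : Vert 2 (n + 1))) :=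
        (inc_emb p n (.inr x)).symm
      rw [e]
      refine Eq.trans ?_ (repl_in p (n + 1) ω (upd n (p n) σ σ')
        (Sum.inr ((p n).1, (p n).2, x) : Vert 2 (n + 1))).symm
      change σ' x = if (((p n).1, (p n).2) : Fin 2 × Bool) = p n then σ' x else
        σ (Sum.inr ((p n).1, (p n).2, x) : Vert 2 (n + 1))
      rw [if_pos rfl]
    · rw [repl_out p n _ _ v (fun x hx => hv ⟨x, hx⟩)]
      by_cases hw : ∃ x : Vert 2 (n + 1), inc p (n + 1) (.inr x) = v
      · obtain ⟨x, rfl⟩ := hw
        rw [repl_in, repl_in]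
        rcases x with i | ⟨i, h, x⟩
        · rfl
        · have hne : ¬ ((i, h) = p n) := by
            intro hp
            apply hv
            refine ⟨x, ?_⟩
            rw [← inc_emb p n (.inr x)]
            rw [← hp]
            rfl
          change _ = if (i, h) = p n then σ' x else σ (Sum.inr (i, h, x) : Vert 2 (n + 1))
          rw [if_neg hne]
      · rw [repl_out p (n + 1) _ _ v (fun x hx => hw ⟨x, hx⟩),
          repl_out p (n + 1) _ _ v (fun x hx => hw ⟨x, hx⟩)]
  · intro n σ
    refine continuous_pi fun v => ?_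
    by_cases hv : ∃ x : Vert 2 n, inc p n (.inr x) = v
    · simp only [repl, dif_pos hv]
      exact continuous_const
    · simp only [repl, dif_neg hv]
      exact continuous_apply _
  · intro n σ
    refine measurable_pi_iff.2 fun v => ?_
    by_cases hv : ∃ x : Vert 2 n, inc p n (.inr x) = v
    · simp only [repl, dif_pos hv]
      exact measurable_const
    · simp only [repl, dif_neg hv]
      exact measurable_pi_apply _
  · intro n
    exact continuous_pi fun e => cpl_cont p n e
  · intro n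
    exact measurable_pi_iff.2 fun e => cpl_meas p n e
  · intro w n e
    exact dif_pos rfl

end Pool.Agent.N14.EJ
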